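import Pool.Agent.W221.NS.Stm

/-!
Part MD-CT: continuity in time of the local quantities.
-/

open MeasureTheory Set Metric
open scoped ContDiff

namespace W335.MD

open H459R3.NS W221.NS

lemma isOpen_strip (α β : ℝ) : IsOpen (Ioo α β ×ˢ (univ : Set V)) := isOpen_Ioo.prod isOpen_univ

lemma comp_smooth {α β : ℝ} {v : ℝ → V → V}
    (hv : ContDiffOn ℝ ∞ (fun z : ℝ × V => v z.1 z.2) (Ioo α β ×ˢ univ)) (i : Fin 3) :
    ContDiffOn ℝ ∞ (fun z : ℝ × V => v z.1 z.2 i) (Ioo α β ×ˢ univ) := by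
  have h := contDiff_apply (𝕜 := ℝ) (E := ℝ) (n := ∞) i
  exact h.comp_contDiffOn hv

/-- the spatial derivatives of a function of time and space -/
lemma pd_eq {α β : ℝ} {g : ℝ → V → ℝ}
    (hg : ContDiffOn ℝ ∞ (fun z : ℝ × V => g z.1 z.2) (Ioo α β ×ˢ univ)) (j : Fin 3)
    {z : ℝ × V} (hz : z ∈ Ioo α β ×ˢ (univ : Set V)) :
    pd j (g z.1) z.2 = fderiv ℝ (fun w : ℝ × V => g w.1 w.2) z (0, Pi.single j 1) := by
  have h1 : DifferentiableAt ℝ (fun w : ℝ × V => g w.1 w.2) z :=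
    (hg.differentiableOn (by simp)).differentiableAt ((isOpen_strip α β).mem_nhds hz)
  have h2 : HasFDerivAt (fun y : V => (z.1, y)) (ContinuousLinearMap.inr ℝ ℝ V) z.2 :=
    hasFDerivAt_prodMk_right z.1 z.2
  have h3 : HasFDerivAt (fun y : V => g z.1 y)
      ((fderiv ℝ (fun w : ℝ × V => g w.1 w.2) z).comp (ContinuousLinearMap.inr ℝ ℝ V)) z.2 :=
    HasFDerivAt.comp (g := fun w : ℝ × V => g w.1 w.2) z.2 h1.hasFDerivAt h2
  have h4 : fderiv ℝ (g z.1) z.2 =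
      (fderiv ℝ (fun w : ℝ × V => g w.1 w.2) z).comp (ContinuousLinearMap.inr ℝ ℝ V) := h3.fderiv
  unfold pd
  rw [h4]
  rfl

lemma pd_cont {α β : ℝ} {g : ℝ → V → ℝ}
    (hg : ContDiffOn ℝ ∞ (fun z : ℝ × V => g z.1 z.2) (Ioo α β ×ˢ univ)) (j : Fin 3) :
    ContinuousOn (fun z : ℝ × V => pd j (g z.1) z.2) (Ioo α β ×ˢ univ) := by
  have h1 : ContinuousOn
      (fun z : ℝ × V => fderiv ℝ (fun w : ℝ × V => g w.1 w.2) z (0, Pi.single j 1))
      (Ioo α β ×ˢ univ) :=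
    (hg.continuousOn_fderiv_of_isOpen (isOpen_strip α β) (by simp)).clm_apply continuousOn_const
  exact h1.congr fun z hz => pd_eq hg j hz

lemma nsq_cont {α β : ℝ} {v : ℝ → V → V}
    (hv : ContDiffOn ℝ ∞ (fun z : ℝ × V => v z.1 z.2) (Ioo α β ×ˢ univ)) :
    ContinuousOn (fun z : ℝ × V => nsq (v z.1) z.2) (Ioo α β ×ˢ univ) := by
  unfold nsq
  exact continuousOn_finsetSum _ fun i _ => (comp_smooth hv i).continuousOn.pow 2

lemma gsq_cont {α β : ℝ} {v : ℝ → V → V}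
    (hv : ContDiffOn ℝ ∞ (fun z : ℝ × V => v z.1 z.2) (Ioo α β ×ˢ univ)) :
    ContinuousOn (fun z : ℝ × V => gsq (v z.1) z.2) (Ioo α β ×ˢ univ) := by
  unfold gsq
  exact continuousOn_finsetSum _ fun i _ => continuousOn_finsetSum _ fun j _ =>
    (pd_cont (g := fun t y => v t y i) (comp_smooth hv i) j).pow 2

theorem t_CT (h : S_PCONT) : S_CT := by
  intro α β v hv
  refine ⟨fun a ρ => ⟨h α β (fun t z => nsq (v t) z) a ρ (nsq_cont hv),
    h α β (fun t z => gsq (v t) z) a ρ (gsq_cont hv)⟩, fun Φ hΦ h0 => ?_⟩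
  have key : ∀ F : ℝ → V → ℝ,
      ContinuousOn (fun z : ℝ × V => F z.1 z.2) (Ioo α β ×ˢ univ) →
      ContinuousOn (fun t => ∫ z, F t z * Φ t z) (Ioo α β) := by
    intro F hF
    have h1 := h α β (fun t z => F t z * Φ t z) 0 1 (hF.mul hΦ.continuousOn)
    refine h1.congr fun t ht => ?_
    symm
    apply setIntegral_eq_integral_of_forall_compl_eq_zero
    intro z hz
    rw [h0 t ht z hz, mul_zero]
  exact ⟨key (fun t z => nsq (v t) z) (nsq_cont hv), key (fun t z => gsq (v t) z) (gsq_cont hv)⟩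

end W335.MD
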